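import Pool.Agent.Helper87.ThalesModel
import Pool.Agent.Helper87.ThalesElliptic
import Pool.Agent.Helper87.ThalesSanity
import Pool.Agent.Helper87.ThalesSanityE
import Pool.Agent.Helper87.ThalesSanityK

set_option autoImplicit false

namespace Pool.Agent.Results.MP_7a5b4a_gt.ThalesIdentity

open Set Pool.Agent.Helper87

/-! ### Planes of parabolic and of hyperbolic type -/

/-- A projective-metric plane of straight type: `M` is a nonempty open convex subset of the affine
plane (parabolic type if it is the whole plane, hyperbolic type if it is a proper subset), `d` is a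
metric on `M`, continuous for the standard topology, the nonempty intersections of `M` with
straight lines are isometric copies of the real line, and the triangle inequality is strict off
segments. (Values of `d` outside `M` play no role.) -/
structure StraightPlane (M : Set (ℝ × ℝ)) (d : ℝ × ℝ → ℝ × ℝ → ℝ) : Prop where
  isOpen : IsOpen M
  convex : Convex ℝ M
  nonempty : M.Nonempty
  self : ∀ X ∈ M, d X X = 0
  pos : ∀ X ∈ M, ∀ Y ∈ M, X ≠ Y → 0 < d X Y
  symm : ∀ X ∈ M, ∀ Y ∈ M, d X Y = d Y X
  triangle : ∀ X ∈ M, ∀ Y ∈ M, ∀ Z ∈ M, d X Z ≤ d X Y + d Y Z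
  cont : ContinuousOn (fun p : (ℝ × ℝ) × (ℝ × ℝ) => d p.1 p.2) (M ×ˢ M)
  line : ∀ X ∈ M, ∀ Y ∈ M, X ≠ Y → ∃ γ : ℝ → ℝ × ℝ,
    (∀ s t, d (γ s) (γ t) = |s - t|) ∧ range γ = M ∩ line[ℝ, X, Y]
  strict : ∀ X ∈ M, ∀ Y ∈ M, ∀ Z ∈ M, d X Y + d Y Z = d X Z → Y ∈ segment ℝ X Z

/-- The circle identity, for every centre `O`, every radius `r`, every line through `O` (meeting
the circle in `A` and `B` on the two sides of `O`) and every point `P` of the circle off that
line. The size function is `σ`. -/
def CircleIdentity (σ : ℝ → ℝ) (M : Set (ℝ × ℝ)) (d : ℝ × ℝ → ℝ × ℝ → ℝ) : Prop :=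
  ∀ O ∈ M, ∀ r : ℝ, 0 < r → ∀ A ∈ M, ∀ B ∈ M, ∀ P ∈ M, d O A = r → d O B = r →
    O ∈ openSegment ℝ A B → d O P = r → P ∉ line[ℝ, A, B] →
    σ (d A P / 2) ^ 2 + σ (d B P / 2) ^ 2 = σ r ^ 2

/-- The plane is the Euclidean plane: a linear bijection of `ℝ²` onto the Euclidean plane carries
`d` to the Euclidean distance. -/
def EuclideanModel (d : ℝ × ℝ → ℝ × ℝ → ℝ) : Prop :=
  ∃ T : (ℝ × ℝ) ≃ₗ[ℝ] EuclideanSpace ℝ (Fin 2), ∀ X Y, d X Y = dist (T X) (T Y)

/-- Homogeneous coordinates of the image of the point `X` under the projective map with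
matrix `b`. -/
def hom (b : Matrix (Fin 3) (Fin 3) ℝ) (X : ℝ × ℝ) (i : Fin 3) : ℝ :=
  b i 0 + b i 1 * X.1 + b i 2 * X.2

/-- The projective map with matrix `b`, in affine coordinates. -/
noncomputable def proj (b : Matrix (Fin 3) (Fin 3) ℝ) (X : ℝ × ℝ) : ℝ × ℝ :=
  (hom b X 1 / hom b X 0, hom b X 2 / hom b X 0)

/-- The open unit disc. -/
def disc : Set (ℝ × ℝ) := {p | p.1 ^ 2 + p.2 ^ 2 < 1}

/-- The plane is the Beltrami-Cayley-Klein model of the hyperbolic plane: an invertible projective
map, defined on `M`, maps `M` bijectively onto the open unit disc and carries `d` to the distance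
of curvature `-1`, given by `cosh d = (1 - p ⬝ q) / (√(1 - |p|²) √(1 - |q|²))`. -/
def KleinModel (M : Set (ℝ × ℝ)) (d : ℝ × ℝ → ℝ × ℝ → ℝ) : Prop :=
  ∃ b : Matrix (Fin 3) (Fin 3) ℝ, b.det ≠ 0 ∧ (∀ X ∈ M, 0 < hom b X 0) ∧
    BijOn (proj b) M disc ∧
    ∀ X ∈ M, ∀ Y ∈ M, Real.cosh (d X Y) =
      (1 - ((proj b X).1 * (proj b Y).1 + (proj b X).2 * (proj b Y).2)) /
        (Real.sqrt (1 - ((proj b X).1 ^ 2 + (proj b X).2 ^ 2)) *
          Real.sqrt (1 - ((proj b Y).1 ^ 2 + (proj b Y).2 ^ 2)))

/-! ### Planes of elliptic type -/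

/-- Homogeneous coordinates: the points of the projective plane are the nonzero vectors, up to
nonzero factors. -/
abbrev E3 := EuclideanSpace ℝ (Fin 3)

/-- A projective-metric plane of elliptic type in homogeneous coordinates: `d` is a metric on the
projective plane (the nonzero vectors of `ℝ³` up to nonzero factors), continuous for the standard
topology, and every projective line has a parametrisation by arc length, of total length `π`. -/
structure EllipticPlane (d : E3 → E3 → ℝ) : Prop where
  smul : ∀ v w, v ≠ 0 → w ≠ 0 → ∀ a : ℝ, a ≠ 0 → d (a • v) w = d v w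
  symm : ∀ v w, v ≠ 0 → w ≠ 0 → d v w = d w v
  self : ∀ v, v ≠ 0 → d v v = 0
  pos : ∀ v w, LinearIndependent ℝ ![v, w] → 0 < d v w
  triangle : ∀ u v w, u ≠ 0 → v ≠ 0 → w ≠ 0 → d u w ≤ d u v + d v w
  cont : ContinuousOn (fun p : E3 × E3 => d p.1 p.2) {p | p.1 ≠ 0 ∧ p.2 ≠ 0}
  line : ∀ v w, LinearIndependent ℝ ![v, w] → ∃ θ : ℝ → ℝ, Continuous θ ∧ StrictMono θ ∧
    (∀ t, θ (t + Real.pi) = θ t + Real.pi) ∧ ∀ s t, |s - t| ≤ Real.pi / 2 →
      d (Real.cos (θ s) • v + Real.sin (θ s) • w) (Real.cos (θ t) • v + Real.sin (θ t) • w) =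
        |s - t|

/-- All circles of radius less than `π / 2` are strictly convex: the closed disc misses some
projective line `f = 0`, and in the affine plane `f ≠ 0` the points strictly between two points
of the closed disc lie in the open disc. -/
def StrictlyConvexCircles (d : E3 → E3 → ℝ) : Prop :=
  ∀ N, N ≠ 0 → ∀ r, 0 < r → r < Real.pi / 2 → ∃ f : E3 →ₗ[ℝ] ℝ,
    (∀ v, v ≠ 0 → d N v ≤ r → f v ≠ 0) ∧
    ∀ v w, LinearIndependent ℝ ![v, w] → d N v ≤ r → d N w ≤ r → 0 < f v → 0 < f w →
      ∀ a b : ℝ, 0 < a → 0 < b → d N (a • v + b • w) < r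

/-- The plane is the elliptic plane of curvature `1`: a linear bijection of `ℝ³` carries `d` to
the angle distance of lines through the origin. -/
def EllipticModel (d : E3 → E3 → ℝ) : Prop :=
  ∃ T : E3 ≃ₗ[ℝ] E3, ∀ v w, v ≠ 0 → w ≠ 0 → d v w =
    min (InnerProductGeometry.angle (T v) (T w)) (Real.pi - InnerProductGeometry.angle (T v) (T w))

/-! ### The theorem -/

lemma StraightPlane.conv {M : Set (ℝ × ℝ)} {d : ℝ × ℝ → ℝ × ℝ → ℝ} (h : StraightPlane M d) :
    Thales.StraightPlane M d :=
  ⟨h.isOpen, h.convex, h.nonempty, h.self, h.pos, h.symm, h.triangle, h.cont, h.line, h.strict⟩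

lemma EllipticPlane.conv {d : E3 → E3 → ℝ} (h : EllipticPlane d) : Elliptic.EllipticMetric d :=
  ⟨h.smul, h.symm, h.self, h.pos, h.triangle, h.cont, h.line⟩

/-- A projective-metric plane of parabolic or hyperbolic type that satisfies the circle identity
for every circle is a model of Euclidean or hyperbolic geometry; a projective-metric plane of
elliptic type with strictly convex circles is a model of elliptic geometry. -/
theorem result :
    (∀ d, StraightPlane univ d → CircleIdentity id univ d → EuclideanModel d) ∧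
    (∀ M d, M ≠ univ → StraightPlane M d → CircleIdentity Real.sinh M d → KleinModel M d) ∧
    (∀ d, EllipticPlane d → StrictlyConvexCircles d → EllipticModel d) :=
  ⟨fun _ hd hσ => Thales.euclid_of_identity hd.conv hσ,
    fun _ _ _ hd hσ => Thales.klein_of_identity hd.conv hσ,
    fun _ hd hc => Elliptic.elliptic_classical hd.conv hc⟩

/-! ### Sanity checks -/

/-- The Euclidean plane satisfies the hypotheses of the first part. -/
theorem euclid_sanity : StraightPlane univ Thales.euclidDist ∧
    CircleIdentity id univ Thales.euclidDist :=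
  ⟨⟨Thales.euclid_plane.isOpen, Thales.euclid_plane.convex, Thales.euclid_plane.nonempty,
    Thales.euclid_plane.self, Thales.euclid_plane.pos, Thales.euclid_plane.symm,
    Thales.euclid_plane.triangle, Thales.euclid_plane.cont, Thales.euclid_plane.line,
    Thales.euclid_plane.strict⟩, Thales.euclid_identity⟩

/-- The Klein model satisfies the hypotheses of the second part. -/
theorem klein_sanity : StraightPlane disc Thales.Klein.kleinDist ∧
    CircleIdentity Real.sinh disc Thales.Klein.kleinDist :=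
  ⟨⟨Thales.Klein.klein_plane.isOpen, Thales.Klein.klein_plane.convex,
    Thales.Klein.klein_plane.nonempty, Thales.Klein.klein_plane.self,
    Thales.Klein.klein_plane.pos, Thales.Klein.klein_plane.symm,
    Thales.Klein.klein_plane.triangle, Thales.Klein.klein_plane.cont,
    Thales.Klein.klein_plane.line, Thales.Klein.klein_plane.strict⟩, Thales.Klein.klein_identity⟩

/-- The elliptic plane of curvature `1` satisfies the hypotheses of the third part. -/
theorem elliptic_sanity : EllipticPlane Elliptic.stdDist ∧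
    StrictlyConvexCircles Elliptic.stdDist :=
  ⟨⟨Elliptic.std_metric.smul, Elliptic.std_metric.symm, Elliptic.std_metric.self,
    Elliptic.std_metric.pos, Elliptic.std_metric.triangle, Elliptic.std_metric.cont,
    Elliptic.std_metric.line⟩, Elliptic.std_convex⟩

end Pool.Agent.Results.MP_7a5b4a_gt.ThalesIdentity
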